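import Pool.Agent.helper93.CR.SpecA
import Pool.Agent.helper65.HF.LEAF

/-!
# MP_07c750, project CR, row LEW (the leafwise inequality with the parameter `w`; copy of row LEF)
-/

set_option autoImplicit false

open Finset MeasureTheory Pool.Agent.HF

namespace Pool.Agent.CR

/-- **Row LEW** -/
theorem LEW_proof (hLEA : LEA_stmt) (hTHW : THW_stmt) : LEW_stmt := by
  intro w m hw hm
  obtain ⟨γ, N0, hγ, hγ1, h⟩ := hTHW w m hw hm
  refine ⟨γ, N0, hγ, hγ1, ?_⟩
  intro N hN Y G hY hP1 hP2 W J c a B S hJ hB0 hB1 hB2 hS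
  refine hLEA N W Y J c a B S hY hJ hB0 ?_ hS
  rcases le_or_gt (2 ^ (8 * N)) (Y.card ^ w) with hc | hc
  · left
    have h1 := h N hN Y G hY hc hP1 hP2
    refine le_trans ?_ hB2
    rw [← mul_assoc]
    exact mul_le_mul_of_nonneg_left h1 (by positivity)
  · right
    have hc' : (Y.card : ℝ) ^ w ≤ 2 ^ (8 * N) := by exact_mod_cast hc.le
    refine le_of_pow_le_pow_left₀ (n := w) (by omega) hB0 (le_trans ?_ hB1)
    rw [mul_pow]
    exact mul_le_mul_of_nonneg_left hc' (by positivity)

/-- the same with the theorem LEA proved -/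
theorem LEW_proof' (hTHW : THW_stmt) : LEW_stmt := LEW_proof LEA_proof hTHW

end Pool.Agent.CR
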