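import Pool.Agent.helper93.CR.SpecA
import Pool.Agent.helper87.HF.PNQ

/-!
# MP_07c750, project CR, row PNW (copy of row PNQ with the parameter `w`)
-/

set_option autoImplicit false

open Finset Pool.Agent.HF

namespace Pool.Agent.CR

theorem PNW_proof : PNW_stmt := by
  classical
  intro w R N k i hw hR hk hq
  have hw' : (0 : ℝ) < w := by
    have : (8 : ℝ) ≤ w := by exact_mod_cast hw
    linarith
  have hRc : (0 : ℝ) < R.card := by exact_mod_cast hR.card_pos
  have hX : (Rk (k + 1) R).Nonempty := Fintype.piFinset_nonempty.2 fun _ => hR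
  have hXc : (0 : ℝ) < (Rk (k + 1) R).card := by exact_mod_cast hX.card_pos
  have hk' : (0 : ℝ) < k := by exact_mod_cast hk
  set X := Rk (k + 1) R with hXd
  set c : (Fin (k + 1) → ℕ) → ℕ := fun u =>
    (Finset.univ.filter (fun l : Fin (k + 1) => l ≠ 0 ∧ CR.nic w R N i (px N i (u l)))).card with hc
  -- the total number
  have h1 : (∑ u ∈ X, (c u : ℝ)) = k * (CR.qq w R N i * X.card) := by
    have h2 : ∀ u, (c u : ℝ) = ∑ l ∈ (Finset.univ.erase (0 : Fin (k + 1))),
        if CR.nic w R N i (px N i (u l)) then (1 : ℝ) else 0 := by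
      intro u
      rw [hc]
      simp only
      rw [Finset.card_filter]
      push_cast
      rw [← Finset.add_sum_erase Finset.univ _ (Finset.mem_univ (0 : Fin (k + 1)))]
      rw [if_neg (by simp), zero_add]
      refine Finset.sum_congr rfl fun l hl => ?_
      have := Finset.ne_of_mem_erase hl
      simp [this]
    simp_rw [h2]
    rw [Finset.sum_comm]
    have h3 : ∀ l ∈ (Finset.univ.erase (0 : Fin (k + 1))),
        (∑ u ∈ X, if CR.nic w R N i (px N i (u l)) then (1 : ℝ) else 0) = CR.qq w R N i * X.card := by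
      intro l _
      rw [← Finset.sum_filter, Finset.sum_const, nsmul_eq_mul, mul_one]
      have h4 := PNQ_count R k (fun u => CR.nic w R N i (px N i u)) l
      unfold CR.qq
      rw [div_mul_eq_mul_div, eq_div_iff hRc.ne']
      exact h4
    rw [Finset.sum_congr rfl h3, Finset.sum_const, Finset.card_erase_of_mem (Finset.mem_univ _)]
    simp
  -- the upper bound
  have h5 : ∀ u ∈ X, (c u : ℝ) ≤ (if (k : ℝ) / (2 * w) ≤ (c u : ℝ) then (k : ℝ) else 0) + k / (2 * w) := by
    intro u _
    split_ifs with h
    · have h6 : c u ≤ k := by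
        rw [hc]
        simp only
        refine (Finset.card_le_card (t := Finset.univ.erase (0 : Fin (k + 1))) ?_).trans ?_
        · intro l hl
          exact Finset.mem_erase.2 ⟨(Finset.mem_filter.1 hl).2.1, Finset.mem_univ _⟩
        · rw [Finset.card_erase_of_mem (Finset.mem_univ _)]
          simp
      have h7 : (c u : ℝ) ≤ k := by exact_mod_cast h6
      have h8 : (0 : ℝ) ≤ k / (2 * w) := by positivity
      linarith
    · push Not at h
      linarith
  have h9 := Finset.sum_le_sum h5
  rw [h1, Finset.sum_add_distrib, ← Finset.sum_filter, Finset.sum_const, Finset.sum_const,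
    nsmul_eq_mul, nsmul_eq_mul] at h9
  have h10 : CR.PN w R N k i * X.card = ((X.filter fun u => (k : ℝ) / (2 * w) ≤ (c u : ℝ)).card : ℝ) := by
    unfold CR.PN
    rw [div_mul_cancel₀ _ hXc.ne']
  rw [← h10] at h9
  have h11 : k * (CR.qq w R N i * X.card) ≤ k * (CR.PN w R N k i * X.card + X.card / (2 * w)) := by
    refine h9.trans (le_of_eq ?_)
    ring
  have h12 := le_of_mul_le_mul_left h11 hk'
  have h13 : CR.qq w R N i * X.card ≤ (CR.PN w R N k i + 1 / (2 * w)) * X.card := by
    refine h12.trans (le_of_eq ?_)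
    ring
  have h14 := le_of_mul_le_mul_right h13 hXc
  have h15 : 1 / (2 * (w : ℝ)) = 1 / w / 2 := by
    field_simp
  rw [h15] at h14
  linarith

end Pool.Agent.CR
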