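import Pool.Agent.helper93.CR.SpecA
import Pool.Agent.helper63.HF.THE

/-!
# MP_07c750, project CR, row THW (the additive energy theorem with the parameter `w`; copy of row THE)
-/

set_option autoImplicit false

open Finset Pool.Agent.HF

namespace Pool.Agent.CR

open Classical in
theorem THW_aux (hBSE : BSE_stmt) (hKVM : KVM_stmt) (w m k N0 : ℕ) (hw : 8 ≤ w) (hk1 : 1 ≤ k)
    (hGRO : ∀ N : ℕ, N0 ≤ N → ∀ (R : Finset ℕ) (G : ℕ → ℕ → Prop), R.Nonempty → (∀ u ∈ R, u < 2 ^ N) →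
      7 / w * (N * Real.log 2) ≤ Real.log R.card →
      (∀ u ∈ R, 4 * w * ((Finset.range (N + 1)).filter (fun j => ¬ G u j)).card ≤ N) →
      (∀ j p : ℕ, j + m ≤ N → ((R.filter (fun u => G u j ∧ px N j u = p)).image (px N (j + m))).card ^ 4 ≤ 2 ^ (3 * m)) →
        Real.log R.card + N * Real.log 2 / (32 * w) ≤ H (Rk (k + 1) R) sm) :
    ∃ (γ : ℝ) (N0 : ℕ), 0 < γ ∧ γ ≤ 1 ∧ ∀ N : ℕ, N0 ≤ N → ∀ (Y : Finset ℕ) (G : ℕ → ℕ → Prop), (∀ u ∈ Y, u < 2 ^ N) →
      2 ^ (8 * N) ≤ Y.card ^ w →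
      (∀ u ∈ Y, 4 * w * ((Finset.range (N + 1)).filter (fun j => ¬ G u j)).card ≤ N) →
      (∀ j p : ℕ, j + m ≤ N → ((Y.filter (fun u => G u j ∧ px N j u = p)).image (px N (j + m))).card ^ 4 ≤ 2 ^ (3 * m)) →
        ((QE Y).card : ℝ) ≤ (2 : ℝ) ^ (-(γ * N)) * (Y.card : ℝ) ^ 3 := by
  have hL : 0 < Real.log 2 := Real.log_pos (by norm_num)
  have hkR : (1 : ℝ) ≤ k := by exact_mod_cast hk1
  have hk0 : (0 : ℝ) < k := by linarith
  have hwR : (8 : ℝ) ≤ w := by exact_mod_cast hw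
  have hw0 : (0 : ℝ) < w := by linarith
  refine ⟨1 / (256 * w * k), N0, by positivity, ?_, ?_⟩
  · rw [div_le_one (by positivity)]
    nlinarith
  intro N hN Y G hu hY hb hp
  by_contra hcon
  rw [not_le] at hcon
  have hYpos : 0 < Y.card := by
    by_contra h0
    have h1 : Y.card = 0 := by omega
    rw [h1, zero_pow (by omega : w ≠ 0)] at hY
    have h2 : 0 < 2 ^ (8 * N) := by positivity
    omega
  have hYne : Y.Nonempty := Finset.card_pos.mp hYpos
  have hYR : (0 : ℝ) < Y.card := Nat.cast_pos.mpr hYpos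
  have hG : G0 Y < 1 / (256 * w * k) * N * Real.log 2 := by
    have h1 := Real.log_lt_log (by positivity) hcon
    rw [Real.log_mul (by positivity) (by positivity), Real.log_pow, Real.log_rpow (by norm_num)] at h1
    unfold G0
    push_cast at h1
    linarith
  obtain ⟨R, hRY, hR, h1, h2, h3⟩ := hBSE Y hYne
  have h4 : 8 / (w : ℝ) * (N * Real.log 2) ≤ Real.log Y.card := by
    have h5 : Real.log ((2 : ℝ) ^ (8 * N)) ≤ Real.log ((Y.card : ℝ) ^ w) :=
      Real.log_le_log (by positivity) (by exact_mod_cast hY)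
    rw [Real.log_pow, Real.log_pow] at h5
    push_cast at h5
    have h6 : 8 / (w : ℝ) * (N * Real.log 2) = (8 * N * Real.log 2) / w := by ring
    rw [h6, div_le_iff₀ hw0]
    linarith
  have hNL : 0 ≤ (N : ℝ) * Real.log 2 := mul_nonneg (Nat.cast_nonneg N) hL.le
  have h6 : 1 / (256 * w * (k : ℝ)) ≤ 1 / (256 * w) := by
    refine one_div_le_one_div_of_le (by positivity) ?_
    nlinarith
  have h7 : 1 / (256 * w * (k : ℝ)) * N * Real.log 2 ≤ 1 / (256 * w) * (N * Real.log 2) := by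
    rw [mul_assoc]
    exact mul_le_mul_of_nonneg_right h6 hNL
  have h7' : 4 * (1 / (256 * (w : ℝ)) * (N * Real.log 2)) ≤ 1 / w * (N * Real.log 2) := by
    have e : 4 * (1 / (256 * (w : ℝ)) * (N * Real.log 2)) = 1 / 64 * (1 / w * (N * Real.log 2)) := by
      field_simp
      ring
    rw [e]
    have : 0 ≤ 1 / (w : ℝ) * (N * Real.log 2) := by positivity
    linarith
  have h8 : 7 / (w : ℝ) * (N * Real.log 2) ≤ Real.log R.card := by
    have e : 8 / (w : ℝ) * (N * Real.log 2) = 7 / (w : ℝ) * (N * Real.log 2) + 1 / w * (N * Real.log 2) := by ring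
    linarith
  have h9 := hGRO N hN R G hR (fun u hr => hu u (hRY hr)) h8 (fun u hr => hb u (hRY hr)) (fun j p hj => by
    refine le_trans (Nat.pow_le_pow_left (Finset.card_le_card (Finset.image_subset_image ?_)) 4) (hp j p hj)
    exact Finset.filter_subset_filter _ hRY)
  have h10 := hKVM R k hR
  have h11 : (k : ℝ) * (H (R ×ˢ R) (fun z => z.1 + z.2) - Real.log R.card) ≤ k * (8 * G0 Y) :=
    mul_le_mul_of_nonneg_left (by linarith) hk0.le
  have h12 : (k : ℝ) * (8 * G0 Y) < k * (8 * (1 / (256 * w * k) * N * Real.log 2)) :=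
    mul_lt_mul_of_pos_left (by linarith) hk0
  have h13 : (k : ℝ) * (8 * (1 / (256 * w * k) * N * Real.log 2)) = N * Real.log 2 / (32 * w) := by
    field_simp
    ring
  linarith

/-- **Row THW** -/
theorem THW_proof (hBSE : BSE_stmt) (hKVM : KVM_stmt) (hGRW : GRW_stmt) : THW_stmt := by
  intro w m hw hm
  obtain ⟨N0, hN0⟩ := hGRW w m hw hm
  exact THW_aux hBSE hKVM w m _ N0 hw (THE_pow _) hN0

end Pool.Agent.CR
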