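import Pool.Agent.helper93.CR.SpecA

/-!
# MP_07c750, project CR, row VAW: the integer part of the sum has bounded entropy (copy of row VAS with the parameter `w`)
-/

set_option autoImplicit false

open Finset Pool.Agent.HF

namespace Pool.Agent.CR

private theorem VAW_cross {k : ℕ} (X : Fin k → Finset ℕ) (g : Fin k → ℕ → ℝ) (i j : Fin k) (hij : i ≠ j)
    (h0 : ∑ v ∈ X i, g i v = 0) : ∑ u ∈ Fintype.piFinset X, g i (u i) * g j (u j) = 0 := by
  have h1 : ∏ l, ∑ v ∈ X l, ((if l = i then g l v else 1) * (if l = j then g l v else 1)) =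
      ∑ u ∈ Fintype.piFinset X, ∏ l, ((if l = i then g l (u l) else 1) * (if l = j then g l (u l) else 1)) :=
    Finset.prod_univ_sum X _
  have h2 : ∏ l, ∑ v ∈ X l, ((if l = i then g l v else 1) * (if l = j then g l v else 1)) = 0 := by
    refine Finset.prod_eq_zero (mem_univ i) ?_
    simp only [if_true, if_neg hij, mul_one]
    exact h0
  calc ∑ u ∈ Fintype.piFinset X, g i (u i) * g j (u j)
      = ∑ u ∈ Fintype.piFinset X, ∏ l, ((if l = i then g l (u l) else 1) * (if l = j then g l (u l) else 1)) := by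
        refine sum_congr rfl fun u _ => ?_
        rw [prod_mul_distrib, prod_ite_eq', prod_ite_eq', if_pos (mem_univ i), if_pos (mem_univ j)]
    _ = 0 := by rw [← h1, h2]

private theorem VAW_second {k : ℕ} (X : Fin k → Finset ℕ) (g : Fin k → ℕ → ℝ) (T : Finset (Fin k)) (D : ℝ)
    (h0 : ∀ i ∈ T, ∑ v ∈ X i, g i v = 0) (hD : ∀ i ∈ T, ∀ v ∈ X i, |g i v| ≤ D) :
    ∑ u ∈ Fintype.piFinset X, (∑ i ∈ T, g i (u i)) ^ 2 ≤ T.card * D ^ 2 * (Fintype.piFinset X).card := by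
  have h1 : ∑ u ∈ Fintype.piFinset X, (∑ i ∈ T, g i (u i)) ^ 2 =
      ∑ i ∈ T, ∑ j ∈ T, ∑ u ∈ Fintype.piFinset X, g i (u i) * g j (u j) := by
    calc ∑ u ∈ Fintype.piFinset X, (∑ i ∈ T, g i (u i)) ^ 2
        = ∑ u ∈ Fintype.piFinset X, ∑ i ∈ T, ∑ j ∈ T, g i (u i) * g j (u j) := by
          refine sum_congr rfl fun u _ => ?_
          rw [sq, sum_mul_sum]
      _ = ∑ i ∈ T, ∑ u ∈ Fintype.piFinset X, ∑ j ∈ T, g i (u i) * g j (u j) := sum_comm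
      _ = _ := sum_congr rfl fun i _ => sum_comm
  rw [h1]
  calc ∑ i ∈ T, ∑ j ∈ T, ∑ u ∈ Fintype.piFinset X, g i (u i) * g j (u j)
      ≤ ∑ i ∈ T, D ^ 2 * ((Fintype.piFinset X).card : ℝ) := by
        refine sum_le_sum fun i hi => ?_
        rw [sum_eq_single_of_mem i hi fun j _ hj => VAW_cross X g i j (Ne.symm hj) (h0 i hi)]
        calc ∑ u ∈ Fintype.piFinset X, g i (u i) * g i (u i) ≤ ∑ u ∈ Fintype.piFinset X, D ^ 2 := by
              refine sum_le_sum fun u hu => ?_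
              have h2 := hD i hi (u i) (Fintype.mem_piFinset.mp hu i)
              rw [← sq, ← sq_abs]
              exact pow_le_pow_left₀ (abs_nonneg _) h2 2
          _ = D ^ 2 * ((Fintype.piFinset X).card : ℝ) := by
              rw [sum_const, nsmul_eq_mul, mul_comm]
    _ = T.card * D ^ 2 * (Fintype.piFinset X).card := by
        rw [sum_const, nsmul_eq_mul, mul_assoc]

/-- the mean -/
private noncomputable def VAW_mean (X : Finset ℕ) : ℝ := (∑ v ∈ X, (v : ℝ)) / X.card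

private theorem VAW_mean_sum (X : Finset ℕ) (hX : X.Nonempty) : ∑ v ∈ X, ((v : ℝ) - VAW_mean X) = 0 := by
  have h : (X.card : ℝ) ≠ 0 := by exact_mod_cast hX.card_pos.ne'
  rw [sum_sub_distrib, sum_const, nsmul_eq_mul]
  unfold VAW_mean
  rw [mul_div_cancel₀ _ h, sub_self]

private theorem VAW_mean_dev (X : Finset ℕ) (hX : X.Nonempty) (D : ℝ) (hD : ∀ u ∈ X, ∀ v ∈ X, |(u : ℝ) - v| ≤ D) (u : ℕ)
    (hu : u ∈ X) : |(u : ℝ) - VAW_mean X| ≤ D := by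
  have h : (0 : ℝ) < X.card := by exact_mod_cast hX.card_pos
  have h1 : (u : ℝ) - VAW_mean X = (∑ v ∈ X, ((u : ℝ) - v)) / X.card := by
    unfold VAW_mean
    rw [sum_sub_distrib, sum_const, nsmul_eq_mul]
    field_simp
  rw [h1, abs_div, abs_of_pos h, div_le_iff₀ h]
  refine (abs_sum_le_sum_abs _ _).trans ?_
  calc ∑ v ∈ X, |(u : ℝ) - v| ≤ ∑ v ∈ X, D := sum_le_sum fun v hv => hD u hu v hv
    _ = D * X.card := by rw [sum_const, nsmul_eq_mul, mul_comm]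

private theorem VAW_num (w : ℕ) (hw : 8 ≤ w) : Real.log 5 + Real.log (1 + (8 + 2 * (4 : ℝ) ^ (2 * w))) ≤ 4 * w := by
  have h2 : Real.log 2 < 0.6931471808 := Real.log_two_lt_d9
  have hL : 0 < Real.log 2 := Real.log_pos (by norm_num)
  have hwR : (8 : ℝ) ≤ w := by exact_mod_cast hw
  have h5 : Real.log 5 ≤ 3 * Real.log 2 := by
    have : Real.log 5 ≤ Real.log (2 ^ 3) := Real.log_le_log (by norm_num) (by norm_num)
    rw [Real.log_pow] at this
    exact_mod_cast this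
  have h6 : Real.log (1 + (8 + 2 * (4 : ℝ) ^ (2 * w))) ≤ (4 * w + 2) * Real.log 2 := by
    have h7 : (4 : ℝ) ^ 2 ≤ 4 ^ (2 * w) := pow_le_pow_right₀ (by norm_num) (by omega)
    have h8 : (1 : ℝ) + (8 + 2 * (4 : ℝ) ^ (2 * w)) ≤ 2 ^ (4 * w + 2) := by
      have h9 : (2 : ℝ) ^ (4 * w + 2) = 4 * 4 ^ (2 * w) := by
        have h10 : (4 : ℝ) = 2 ^ 2 := by norm_num
        rw [h10, ← pow_mul, pow_add, mul_comm]
        congr 2
        ring
      rw [h9]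
      linarith
    have : Real.log (1 + (8 + 2 * (4 : ℝ) ^ (2 * w))) ≤ Real.log (2 ^ (4 * w + 2)) := Real.log_le_log (by positivity) h8
    rw [Real.log_pow] at this
    push_cast at this
    exact this
  have h7 : (4 * (w : ℝ) + 5) * Real.log 2 ≤ 4 * w := by
    have h8 : (4 * (w : ℝ) + 5) * Real.log 2 ≤ (4 * (w : ℝ) + 5) * 0.6931471808 := mul_le_mul_of_nonneg_left h2.le (by positivity)
    linarith
  linarith

private theorem VAW_sq (x y : ℝ) (h : x ^ 2 ≤ 4) : (x + y) ^ 2 ≤ 8 + 2 * y ^ 2 := by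
  nlinarith [sq_nonneg (x - y)]

private theorem VAW_gen (hSMH : SMH_stmt) (w m a c n : ℕ) (hw : 8 ≤ w) (hn : n = 4 ^ (2 * m + 3 + 2 * w)) (X : Fin (n + 1) → Finset ℕ)
    (ha : 2 * m + 3 ≤ a) (hX : ∀ i, (X i).Nonempty) (h0 : ∀ u ∈ X 0, ∀ v ∈ X 0, |(u : ℝ) - v| ≤ (2 : ℝ) ^ a)
    (h1 : ∀ i, i ≠ 0 → ∀ u ∈ X i, ∀ v ∈ X i, |(u : ℝ) - v| ≤ (2 : ℝ) ^ (a - (2 * m + 3))) :
    H (Fintype.piFinset X) (fun u => (c + sm u) / 2 ^ a) ≤ 4 * w := by
  obtain ⟨M, hM⟩ : ∃ M : ℝ, M = (2 : ℝ) ^ a := ⟨_, rfl⟩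
  have hM0 : 0 < M := by rw [hM]; positivity
  obtain ⟨z₀, hz₀⟩ : ∃ z₀ : ℝ, z₀ = ((c : ℝ) + ∑ i, VAW_mean (X i)) / M := ⟨_, rfl⟩
  obtain ⟨g, hg⟩ : ∃ g : Fin (n + 1) → ℕ → ℝ, g = fun (i : Fin (n + 1)) (v : ℕ) => ((v : ℝ) - VAW_mean (X i)) / M := ⟨_, rfl⟩
  obtain ⟨T, hT⟩ : ∃ T : Finset (Fin (n + 1)), T = univ.erase 0 := ⟨_, rfl⟩
  have hTc : (T.card : ℝ) = n := by
    rw [hT, card_erase_of_mem (mem_univ _), card_univ, Fintype.card_fin]
    simp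
  have hsec := VAW_second X g T ((2 : ℝ) ^ (a - (2 * m + 3)) / M)
    (by
      intro i _
      rw [hg]
      simp only
      rw [← sum_div, VAW_mean_sum _ (hX i), zero_div])
    (by
      intro i hi v hv
      rw [hT, mem_erase] at hi
      rw [hg]
      simp only
      rw [abs_div, abs_of_pos hM0]
      exact div_le_div_of_nonneg_right (VAW_mean_dev (X i) (hX i) _ (h1 i hi.1) v hv) hM0.le)
  have h450 : (T.card : ℝ) * ((2 : ℝ) ^ (a - (2 * m + 3)) / M) ^ 2 = 4 ^ (2 * w) := by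
    have h2 : M = (2 : ℝ) ^ (a - (2 * m + 3)) * 2 ^ (2 * m + 3) := by
      rw [hM, ← pow_add]
      congr 1
      omega
    have h3 : (2 : ℝ) ^ (a - (2 * m + 3)) / M = 1 / 2 ^ (2 * m + 3) := by
      rw [h2, ← div_div, div_self (by positivity)]
    have h4 : (n : ℝ) = 4 ^ (2 * w) * 4 ^ (2 * m + 3) := by
      rw [hn]
      push_cast
      rw [← pow_add]
      congr 1
      omega
    have h5 : ((2 : ℝ) ^ (2 * m + 3)) ^ 2 = 4 ^ (2 * m + 3) := by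
      rw [← pow_mul, mul_comm, pow_mul]
      norm_num
    rw [hTc, h3, div_pow, one_pow, h5, h4]
    field_simp
  rw [h450] at hsec
  have hne : (Fintype.piFinset X).Nonempty := Fintype.piFinset_nonempty.mpr hX
  refine (hSMH (Fin (n + 1) → ℕ) (Fintype.piFinset X) (fun u => (c + sm u) / 2 ^ a) z₀ (8 + 2 * 4 ^ (2 * w)) hne
    (by positivity) ?_).trans (VAW_num w hw)
  have hpt : ∀ u ∈ Fintype.piFinset X, ((((c + sm u) / 2 ^ a : ℕ) : ℝ) - z₀) ^ 2 ≤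
      8 + 2 * (∑ i ∈ T, g i (u i)) ^ 2 := by
    intro u hu
    rw [Fintype.mem_piFinset] at hu
    have e1 : |(((c + sm u) / 2 ^ a : ℕ) : ℝ) - ((c : ℝ) + ∑ i, (u i : ℝ)) / M| ≤ 1 := by
      have h2 : ((c + sm u : ℕ) : ℝ) = (c : ℝ) + ∑ i, (u i : ℝ) := by
        unfold sm
        push_cast
        rfl
      rw [← h2, hM]
      have h3 : ((((c + sm u) / 2 ^ a : ℕ)) : ℝ) ≤ ((c + sm u : ℕ) : ℝ) / (2 : ℝ) ^ a := by
        have h4 := @Nat.cast_div_le ℝ _ _ _ (c + sm u) (2 ^ a)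
        rwa [Nat.cast_pow, Nat.cast_ofNat] at h4
      have h5 : ((c + sm u : ℕ) : ℝ) / (2 : ℝ) ^ a ≤ ((((c + sm u) / 2 ^ a : ℕ)) : ℝ) + 1 := by
        rw [div_le_iff₀ (by positivity)]
        have h6 : c + sm u ≤ ((c + sm u) / 2 ^ a + 1) * 2 ^ a := by
          have := Nat.lt_div_mul_add (a := c + sm u) (b := 2 ^ a) (by positivity)
          rw [add_mul, one_mul]
          exact this.le
        exact_mod_cast h6
      rw [abs_le]
      constructor <;> linarith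
    have e2 : ((c : ℝ) + ∑ i, (u i : ℝ)) / M - z₀ = g 0 (u 0) + ∑ i ∈ T, g i (u i) := by
      rw [hT, add_sum_erase univ (fun i => g i (u i)) (mem_univ 0), hz₀, hg]
      simp only
      rw [← sum_div, sum_sub_distrib, ← sub_div]
      congr 1
      ring
    have e3 : |g 0 (u 0)| ≤ 1 := by
      rw [hg]
      simp only
      rw [abs_div, abs_of_pos hM0, div_le_one hM0, hM]
      exact VAW_mean_dev (X 0) (hX 0) _ h0 (u 0) (hu 0)
    have e4 : (((c + sm u) / 2 ^ a : ℕ) : ℝ) - z₀ =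
        ((((c + sm u) / 2 ^ a : ℕ) : ℝ) - ((c : ℝ) + ∑ i, (u i : ℝ)) / M) + g 0 (u 0) + ∑ i ∈ T, g i (u i) := by
      linarith
    rw [e4]
    obtain ⟨A, hA⟩ : ∃ A : ℝ, A = ((((c + sm u) / 2 ^ a : ℕ) : ℝ) - ((c : ℝ) + ∑ i, (u i : ℝ)) / M) := ⟨_, rfl⟩
    rw [← hA] at e1 ⊢
    have h2 : |A + g 0 (u 0)| ≤ 2 := (abs_add_le _ _).trans (by linarith)
    have h3 : (A + g 0 (u 0)) ^ 2 ≤ 4 := by
      rw [← sq_abs]
      have := pow_le_pow_left₀ (abs_nonneg _) h2 2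
      linarith
    exact VAW_sq _ _ h3
  have hs1 : ∑ u ∈ Fintype.piFinset X, (8 + 2 * (∑ i ∈ T, g i (u i)) ^ 2) =
      ((Fintype.piFinset X).card : ℝ) * 8 + 2 * ∑ u ∈ Fintype.piFinset X, (∑ i ∈ T, g i (u i)) ^ 2 := by
    rw [sum_add_distrib, sum_const, nsmul_eq_mul, mul_sum]
  have hs2 := sum_le_sum hpt
  rw [hs1] at hs2
  refine hs2.trans ?_
  clear hs1 hs2 hpt
  obtain ⟨N, hN⟩ : ∃ N : ℝ, N = ((Fintype.piFinset X).card : ℝ) := ⟨_, rfl⟩
  rw [← hN] at hsec ⊢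
  obtain ⟨S, hS⟩ : ∃ S : ℝ, S = ∑ u ∈ Fintype.piFinset X, (∑ i ∈ T, g i (u i)) ^ 2 := ⟨_, rfl⟩
  rw [← hS] at hsec ⊢
  clear hS hN
  linarith

theorem VAW_proof (hSMH : SMH_stmt) : VAW_stmt := by
  intro w m a c X hw ha hX h0 h1
  exact VAW_gen hSMH w m a c (4 ^ (2 * m + 3 + 2 * w)) hw rfl X ha hX h0 h1

end Pool.Agent.CR
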